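import Pool.Agent.Helper90.ST.Defs
import Pool.Agent.Helper12.ST.KF

set_option autoImplicit false

namespace Pool.Agent.Helper90.ST

/-- A complex matrix with `M ^ (N+1) = M` has trace integral over `ℤ`. -/
theorem cg_isIntegral_trace_of_pow_eq {n : Type} [Fintype n] [DecidableEq n] (M : Matrix n n ℂ)
    {N : ℕ} (hN : 0 < N) (hM : M ^ (N + 1) = M) : IsIntegral ℤ M.trace := by
  rw [Matrix.trace_eq_sum_roots_charpoly]
  apply IsIntegral.multiset_sum
  intro x hx
  have hx1 : x ∈ spectrum ℂ M := by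
    rw [Matrix.mem_spectrum_iff_isRoot_charpoly]
    exact Polynomial.isRoot_of_mem_roots hx
  have h2 : (Polynomial.X ^ (N + 1) - Polynomial.X : Polynomial ℂ).eval x ∈
      spectrum ℂ (Polynomial.aeval M (Polynomial.X ^ (N + 1) - Polynomial.X : Polynomial ℂ)) :=
    spectrum.subset_polynomial_aeval M _ ⟨x, hx1, rfl⟩
  have h3 : Polynomial.aeval M (Polynomial.X ^ (N + 1) - Polynomial.X : Polynomial ℂ) = 0 := by
    simp [hM]
  rw [h3] at h2
  have h4 : (Polynomial.X ^ (N + 1) - Polynomial.X : Polynomial ℂ).eval x = 0 := by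
    by_contra hne
    apply h2
    rw [spectrum.mem_resolventSet_iff, sub_zero]
    exact (IsUnit.mk0 _ hne).map (algebraMap ℂ (Matrix n n ℂ))
  refine ⟨Polynomial.X ^ (N + 1) - Polynomial.X, ?_, ?_⟩
  · apply Polynomial.monic_X_pow_sub
    rw [Polynomial.degree_X]
    exact_mod_cast Nat.lt_add_of_pos_left hN
  · simpa using h4

/-- An endomorphism of `G → ℂ` with `M ^ (N+1) = M` has trace integral over `ℤ`. -/
theorem cg_isIntegral_sum_of_pow_eq {n : Type} [Fintype n] [DecidableEq n]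
    (M : Module.End ℂ (n → ℂ)) {N : ℕ} (hN : 0 < N) (hM : M ^ (N + 1) = M) :
    IsIntegral ℤ (∑ x, M (Pi.single x 1) x) := by
  have h1 := cg_isIntegral_trace_of_pow_eq (LinearMap.toMatrixAlgEquiv' M) hN
    (by rw [← map_pow, hM])
  have h2 : (LinearMap.toMatrixAlgEquiv' M).trace = ∑ x, M (Pi.single x 1) x := by
    simp only [Matrix.trace, Matrix.diag_apply, LinearMap.toMatrixAlgEquiv'_apply]
  rwa [h2] at h1

section KF

variable {G ι : Type} [Group G] {A : ι → Subgroup G} {S : Subgroup G} {s t : ℕ}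

theorem cg_sum_SF_mul_left [Fintype G] {R : Type} [AddCommMonoid R] (H : Subgroup G) {c : G}
    (hc : c ∈ H) (f : G → R) : ∑ σ ∈ SF H, f (c * σ) = ∑ σ ∈ SF H, f σ := by
  apply Finset.sum_bij (fun σ _ => c * σ)
  · intro a ha
    rw [mem_SF] at *
    exact H.mul_mem hc ha
  · intro a _ b _ hab
    exact mul_left_cancel hab
  · intro b hb
    refine ⟨c⁻¹ * b, ?_, by group⟩
    rw [mem_SF] at *
    exact H.mul_mem (H.inv_mem hc) hb
  · intro a _
    rfl

theorem cg_sum_SF_normal [Fintype G] {R : Type} [AddCommMonoid R] (H : Subgroup G) (hH : H.Normal)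
    (b : G) (f : G → R) : ∑ σ ∈ SF H, f (σ * b) = ∑ σ ∈ SF H, f (b * σ) := by
  apply Finset.sum_bij (fun σ _ => b⁻¹ * σ * b)
  · intro a ha
    rw [mem_SF] at *
    have := hH.conj_mem a ha b⁻¹
    simpa using this
  · intro a _ c _ hab
    simpa using hab
  · intro c hc
    refine ⟨b * c * b⁻¹, ?_, by group⟩
    rw [mem_SF] at *
    exact hH.conj_mem c hc b
  · intro a _
    congr 1
    group

/-- The operator `f ↦ ∑ f(x a) - (1/t) ∑ f(x a σ)`. -/
noncomputable def cg_opR [Fintype G] [Fintype ι] (A : ι → Subgroup G) (S : Subgroup G) (t : ℕ) :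
    Module.End ℂ (G → ℂ) where
  toFun f x := ∑ i, ∑ a ∈ SF (A i), (f (x * a) - (1 / (t : ℂ)) * ∑ σ ∈ SF S, f (x * a * σ))
  map_add' f g := by
    funext x
    simp only [Pi.add_apply, Finset.sum_add_distrib, mul_add]
    rw [← Finset.sum_add_distrib]
    refine Finset.sum_congr rfl fun i _ => ?_
    rw [← Finset.sum_add_distrib]
    refine Finset.sum_congr rfl fun a _ => ?_
    ring
  map_smul' c f := by
    funext x
    simp only [Pi.smul_apply, smul_eq_mul, RingHom.id_apply, Finset.mul_sum]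
    refine Finset.sum_congr rfl fun i _ => ?_
    refine Finset.sum_congr rfl fun a _ => ?_
    rw [mul_sub, Finset.mul_sum]
    congr 1
    refine Finset.sum_congr rfl fun a _ => ?_
    ring

/-- left translation -/
noncomputable def cg_opL [Fintype G] (g : G) : Module.End ℂ (G → ℂ) where
  toFun f x := f (g * x)
  map_add' f g := rfl
  map_smul' c f := rfl

theorem cg_opL_pow [Fintype G] (g : G) (n : ℕ) : (cg_opL g) ^ n = cg_opL (g ^ n) := by
  induction n with
  | zero =>
    ext f x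
    simp [cg_opL]
  | succ n ih =>
    rw [pow_succ, ih]
    apply LinearMap.ext
    intro f
    funext x
    show f (g * (g ^ n * x)) = f (g ^ (n + 1) * x)
    rw [pow_succ', mul_assoc]

theorem cg_opL_comm [Fintype G] [Fintype ι] (A : ι → Subgroup G) (S : Subgroup G) (t : ℕ) (g : G) :
    cg_opL g * cg_opR A S t = cg_opR A S t * cg_opL g := by
  apply LinearMap.ext
  intro f
  funext x
  show cg_opR A S t f (g * x) = cg_opR A S t (cg_opL g f) x
  simp only [cg_opR, cg_opL, LinearMap.coe_mk, AddHom.coe_mk, mul_assoc]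

theorem cg_opR_sq (h : IsKF A S s t) (hs : 0 < s) (ht : 0 < t) [Fintype G] [Fintype ι] :
    cg_opR A S t * cg_opR A S t = ((s : ℂ) + t) • cg_opR A S t := by
  have htC : (t : ℂ) ≠ 0 := by exact_mod_cast ht.ne'
  apply LinearMap.ext
  intro f
  funext x
  set H : G → ℂ := fun g => f (x * g) - (1 / (t : ℂ)) * ∑ σ ∈ SF S, f (x * g * σ) with hH
  have hcard : ((SF S).card : ℂ) = t := by rw [card_SF, h.cardS]
  have hHS : ∀ a : G, ∑ σ ∈ SF S, H (a * σ) = 0 := by
    intro a
    simp only [hH]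
    rw [Finset.sum_sub_distrib, ← Finset.mul_sum]
    have : ∀ σ ∈ SF S, ∑ τ ∈ SF S, f (x * (a * σ) * τ) = ∑ τ ∈ SF S, f (x * a * τ) := by
      intro σ hσ
      rw [mem_SF] at hσ
      rw [← cg_sum_SF_mul_left S hσ (fun y => f (x * a * y))]
      refine Finset.sum_congr rfl fun τ _ => ?_
      simp only [mul_assoc]
    rw [Finset.sum_congr rfl this, Finset.sum_const, nsmul_eq_mul, hcard]
    simp only [mul_assoc]
    field_simp
    ring
  have hHG : ∑ g, H g = 0 := by
    simp only [hH]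
    rw [Finset.sum_sub_distrib, ← Finset.mul_sum, Finset.sum_comm]
    have : ∀ τ ∈ SF S, ∑ g : G, f (x * g * τ) = ∑ g : G, f (x * g) := by
      intro τ _
      simp only [mul_assoc]
      exact (Fintype.sum_equiv (Equiv.mulRight τ) _ _ (fun g => rfl))
    rw [Finset.sum_congr rfl this, Finset.sum_const, nsmul_eq_mul, hcard]
    field_simp
    ring
  have key := h.sum_mul hs ht H
  simp only [hHS, Finset.sum_const_zero, hHG, smul_zero, sub_zero, add_zero] at key
  have h1 : ∑ i, ∑ a ∈ SF (A i), H a = cg_opR A S t f x := rfl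
  rw [h1, nsmul_eq_mul] at key
  show cg_opR A S t (cg_opR A S t f) x = ((s : ℂ) + t) * cg_opR A S t f x
  push_cast at key
  rw [← key]
  -- compute the double application
  have h2 : ∀ a : G, cg_opR A S t f (x * a) = ∑ j, ∑ b ∈ SF (A j), H (a * b) := by
    intro a
    simp only [cg_opR, LinearMap.coe_mk, AddHom.coe_mk, hH, mul_assoc]
  have h3 : ∀ a : G, ∑ σ ∈ SF S, cg_opR A S t f (x * a * σ) = 0 := by
    intro a
    have : ∀ σ ∈ SF S, cg_opR A S t f (x * a * σ) = ∑ j, ∑ b ∈ SF (A j), H (a * (σ * b)) := by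
      intro σ _
      rw [mul_assoc, h2]
      simp only [mul_assoc]
    rw [Finset.sum_congr rfl this, Finset.sum_comm]
    refine Finset.sum_eq_zero fun j _ => ?_
    rw [Finset.sum_comm]
    refine Finset.sum_eq_zero fun b _ => ?_
    rw [cg_sum_SF_normal S h.normS b (fun y => H (a * y))]
    simp only [← mul_assoc]
    exact hHS (a * b)
  show ∑ i, ∑ a ∈ SF (A i), (cg_opR A S t f (x * a)
      - (1 / (t : ℂ)) * ∑ σ ∈ SF S, cg_opR A S t f (x * a * σ)) = _
  simp only [h3, mul_zero, sub_zero, h2]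
  refine Finset.sum_congr rfl fun i _ => ?_
  rw [Finset.sum_comm]

theorem kf_congr (h : IsKF A S s t) (hs : 0 < s) (ht : 0 < t) [Fintype ι] (g₀ : G) :
    ((s : ℤ) + t) * t ∣ t * (∑ i, (Nat.card {g : G // g⁻¹ * g₀ * g ∈ A i} : ℤ))
      - ∑ i, (Nat.card {g : G // g⁻¹ * g₀ * g ∈ A i ⊔ S} : ℤ) := by
  classical
  have := h.finite_G hs ht
  have := Fintype.ofFinite G
  have htC : (t : ℂ) ≠ 0 := by exact_mod_cast ht.ne'
  have hstC : ((s : ℂ) + t) ≠ 0 := by exact_mod_cast (by omega : s + t ≠ 0)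
  set R := cg_opR A S t with hR
  set L : Module.End ℂ (G → ℂ) := cg_opL g₀⁻¹ with hL
  have hRR : R * R = ((s : ℂ) + t) • R := cg_opR_sq h hs ht
  have hLR : L * R = R * L := cg_opL_comm A S t g₀⁻¹
  set M : Module.End ℂ (G → ℂ) := ((s : ℂ) + t)⁻¹ • (L * R) with hM
  have hpow : ∀ n : ℕ, M ^ (n + 1) = ((s : ℂ) + t)⁻¹ • (L ^ (n + 1) * R) := by
    intro n
    induction n with
    | zero => simp [hM]
    | succ n ih =>
      rw [pow_succ, ih, hM, smul_mul_smul_comm]
      have : L ^ (n + 1) * R * (L * R) = ((s : ℂ) + t) • (L ^ (n + 1 + 1) * R) := by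
        rw [mul_assoc, ← mul_assoc R L R, ← hLR, mul_assoc L R R, hRR, mul_smul_comm,
          mul_smul_comm, ← mul_assoc, ← pow_succ]
      rw [this, smul_smul]
      congr 1
      field_simp
  have hN : M ^ (Fintype.card G + 1) = M := by
    rw [hpow, pow_succ, hL, cg_opL_pow, inv_pow, pow_card_eq_one, hM]
    congr 2
    rw [inv_one]
    have : (cg_opL (1 : G)) = 1 := by
      apply LinearMap.ext
      intro f
      funext x
      show f (1 * x) = f x
      rw [one_mul]
    rw [this, one_mul]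
  have hint := cg_isIntegral_sum_of_pow_eq M Fintype.card_pos hN
  -- compute the trace
  have htr : ∑ x, M (Pi.single x 1) x
      = ((s : ℂ) + t)⁻¹ * ((∑ i, (Nat.card {g : G // g⁻¹ * g₀ * g ∈ A i} : ℂ))
        - (1 / (t : ℂ)) * ∑ i, (Nat.card {g : G // g⁻¹ * g₀ * g ∈ A i ⊔ S} : ℂ)) := by
    have e1 : ∀ x, M (Pi.single x 1) x = ((s : ℂ) + t)⁻¹ * ∑ i, ∑ a ∈ SF (A i),
        ((if a = x⁻¹ * g₀ * x then (1 : ℂ) else 0)
          - (1 / (t : ℂ)) * ∑ σ ∈ SF S, if a * σ = x⁻¹ * g₀ * x then (1 : ℂ) else 0) := by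
      intro x
      show ((s : ℂ) + t)⁻¹ * (∑ i, ∑ a ∈ SF (A i), (Pi.single (M := fun _ => ℂ) x 1 (g₀⁻¹ * x * a)
        - (1 / (t : ℂ)) * ∑ σ ∈ SF S, Pi.single (M := fun _ => ℂ) x 1 (g₀⁻¹ * x * a * σ))) = _
      have e2 : ∀ y : G, Pi.single (M := fun _ => ℂ) x (1 : ℂ) (g₀⁻¹ * x * y)
          = if y = x⁻¹ * g₀ * x then (1 : ℂ) else 0 := by
        intro y
        rw [Pi.single_apply]
        congr 1
        apply propext
        constructor
        · intro e
          have e' : y = x⁻¹ * g₀ * (g₀⁻¹ * x * y) := by group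
          rw [e', e]
        · intro e
          rw [e]
          group
      simp only [mul_assoc] at e2 ⊢
      simp only [e2]
    have e3 : ∀ (i : ι) (y : G), ∑ a ∈ SF (A i), (if a = y then (1 : ℂ) else 0)
        = if y ∈ A i then 1 else 0 := by
      intro i y
      rw [Finset.sum_ite_eq']
      simp
    have e4 : ∀ (i : ι) (y : G), ∑ a ∈ SF (A i), ∑ σ ∈ SF S, (if a * σ = y then (1 : ℂ) else 0)
        = if y ∈ A i ⊔ S then 1 else 0 := by
      intro i y
      have := h.normS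
      by_cases hy : y ∈ A i ⊔ S
      · rw [if_pos hy]
        obtain ⟨a, ha, σ, hσ, rfl⟩ := Subgroup.mem_sup_of_normal_right.1 hy
        rw [Finset.sum_eq_single a, Finset.sum_eq_single σ]
        · simp
        · intro τ _ hτ
          rw [if_neg]
          intro e
          exact hτ (mul_left_cancel e)
        · intro hn
          exact absurd (mem_SF.2 hσ) hn
        · intro b hb hba
          apply Finset.sum_eq_zero
          intro τ hτ
          rw [mem_SF] at hb hτ
          rw [if_neg]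
          intro e
          apply hba
          have h1 : a⁻¹ * b = σ * τ⁻¹ := by
            have : b = a * σ * τ⁻¹ := by rw [← e]; group
            rw [this]; group
          have h2 : a⁻¹ * b = 1 := h.inter_S ht i _ ((A i).mul_mem ((A i).inv_mem ha) hb)
            (by rw [h1]; exact S.mul_mem hσ (S.inv_mem hτ))
          exact (inv_mul_eq_one.1 h2).symm
        · intro hn
          exact absurd (mem_SF.2 ha) hn
      · rw [if_neg hy]
        apply Finset.sum_eq_zero
        intro a ha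
        apply Finset.sum_eq_zero
        intro σ hσ
        rw [mem_SF] at ha hσ
        rw [if_neg]
        rintro rfl
        exact hy (Subgroup.mul_mem_sup ha hσ)
    have e5 : ∀ x, M (Pi.single x 1) x = ((s : ℂ) + t)⁻¹ * ∑ i,
        ((if x⁻¹ * g₀ * x ∈ A i then (1 : ℂ) else 0)
          - (1 / (t : ℂ)) * if x⁻¹ * g₀ * x ∈ A i ⊔ S then (1 : ℂ) else 0) := by
      intro x
      rw [e1]
      congr 1
      refine Finset.sum_congr rfl fun i _ => ?_
      rw [Finset.sum_sub_distrib, e3, ← Finset.mul_sum, e4]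
    have e6 : ∀ (K : Subgroup G), (∑ x : G, if x⁻¹ * g₀ * x ∈ K then (1 : ℂ) else 0)
        = (Nat.card {g : G // g⁻¹ * g₀ * g ∈ K} : ℂ) := by
      intro K
      rw [Nat.card_eq_fintype_card, Fintype.card_subtype, Finset.sum_boole]
    simp only [e5]
    rw [← Finset.mul_sum, Finset.sum_comm]
    congr 1
    simp only [Finset.sum_sub_distrib, ← Finset.mul_sum, e6]
  rw [htr] at hint
  set n1 : ℤ := ∑ i, (Nat.card {g : G // g⁻¹ * g₀ * g ∈ A i} : ℤ) with hn1
  set n2 : ℤ := ∑ i, (Nat.card {g : G // g⁻¹ * g₀ * g ∈ A i ⊔ S} : ℤ) with hn2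
  have hq : ((s : ℂ) + t)⁻¹ * ((∑ i, (Nat.card {g : G // g⁻¹ * g₀ * g ∈ A i} : ℂ))
        - (1 / (t : ℂ)) * ∑ i, (Nat.card {g : G // g⁻¹ * g₀ * g ∈ A i ⊔ S} : ℂ))
      = algebraMap ℚ ℂ (((s : ℚ) + t)⁻¹ * ((n1 : ℚ) - (1 / (t : ℚ)) * n2)) := by
    rw [hn1, hn2]
    simp only [map_mul, map_sub, map_inv₀, map_add, map_natCast, map_div₀, map_one, map_intCast]
    push_cast
    rfl
  rw [hq, isIntegral_algebraMap_iff (algebraMap ℚ ℂ).injective] at hint
  obtain ⟨z, hz⟩ := IsIntegrallyClosed.isIntegral_iff.1 hint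
  refine ⟨z, ?_⟩
  have htQ : (t : ℚ) ≠ 0 := by exact_mod_cast ht.ne'
  have hstQ : ((s : ℚ) + t) ≠ 0 := by exact_mod_cast (by omega : s + t ≠ 0)
  have hz' : (z : ℚ) = ((s : ℚ) + t)⁻¹ * ((n1 : ℚ) - (1 / (t : ℚ)) * n2) := by
    rw [← hz]; simp
  have : ((t * n1 - n2 : ℤ) : ℚ) = (((s : ℤ) + t) * t * z : ℤ) := by
    push_cast
    rw [hz']
    field_simp
  exact_mod_cast this

theorem kf_dvd (h : IsKF A S s t) (hs : 1 < s) (ht : 1 < t) : (s + t) ∣ (t + 1) * s ^ 2 := by
  classical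
  have hs0 : 0 < s := by omega
  have ht0 : 0 < t := by omega
  have := h.finite_G hs0 ht0
  have : Finite ι := Nat.finite_of_card_ne_zero (by rw [h.cardI]; omega)
  have := Fintype.ofFinite ι
  have : Nontrivial S := by
    rw [← Finite.one_lt_card_iff_nontrivial]
    have := h.cardS
    omega
  obtain ⟨⟨σ, hσ⟩, hne⟩ := exists_ne (1 : S)
  have hne' : σ ≠ 1 := fun e => hne (Subtype.ext e)
  have key := kf_congr h hs0 ht0 σ
  have h1 : ∀ i, Nat.card {g : G // g⁻¹ * σ * g ∈ A i} = 0 := by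
    intro i
    rw [Nat.card_eq_zero]
    left
    refine ⟨fun ⟨g, hg⟩ => ?_⟩
    have hS : g⁻¹ * σ * g ∈ S := by
      have := h.normS.conj_mem σ hσ g⁻¹
      simpa using this
    have := h.inter_S ht0 i _ hg hS
    apply hne'
    have e : σ = g * (g⁻¹ * σ * g) * g⁻¹ := by group
    rw [e, this]
    group
  have h2 : ∀ i, Nat.card {g : G // g⁻¹ * σ * g ∈ A i ⊔ S} = s ^ 2 * t := by
    intro i
    rw [← h.cardG]
    apply Nat.card_congr
    apply Equiv.subtypeUnivEquiv
    intro g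
    have hS : g⁻¹ * σ * g ∈ S := by
      have := h.normS.conj_mem σ hσ g⁻¹
      simpa using this
    exact (le_sup_right : S ≤ A i ⊔ S) hS
  simp only [h1, h2, Nat.cast_zero, Finset.sum_const_zero, mul_zero, zero_sub, Finset.sum_const,
    Finset.card_univ, dvd_neg] at key
  have hc : Fintype.card ι = t + 1 := by rw [← Nat.card_eq_fintype_card, h.cardI]
  rw [hc, nsmul_eq_mul] at key
  have key2 : (s + t) * t ∣ ((t + 1) * s ^ 2) * t := by
    have : (((s + t) * t : ℕ) : ℤ) ∣ (((t + 1) * s ^ 2 * t : ℕ) : ℤ) := by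
      have e : (((t + 1) * s ^ 2 * t : ℕ) : ℤ) = ((t + 1 : ℕ) : ℤ) * ((s ^ 2 * t : ℕ) : ℤ) := by
        push_cast
        ring
      rw [e]
      have e2 : (((s + t) * t : ℕ) : ℤ) = ((s : ℤ) + t) * t := by push_cast; ring
      rw [e2]
      exact key
    exact_mod_cast this
  exact Nat.dvd_of_mul_dvd_mul_right ht0 key2

end KF

end Pool.Agent.Helper90.ST
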